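import Pool.Agent.H.MP_7dfbfb_co.E

set_option autoImplicit false

namespace Pool.Agent.Results.MP_7dfbfb_co.TwoAdic

def V (n : ℕ) : Type := {p : ℤ × ℤ // 0 ≤ p.2 ∧ p.2 ≤ p.1 ∧ p.1 ≤ (n : ℤ) - 1}

def T (n : ℕ) : SimpleGraph (V n) :=
  SimpleGraph.fromRel (fun u v => v.1 - u.1 = (0, 1) ∨ v.1 - u.1 = (1, 0) ∨ v.1 - u.1 = (1, 1))

noncomputable def M (n : ℕ) : ℕ := Nat.card {H : (T n).Subgraph // H.IsPerfectMatching}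

theorem result (n : ℕ) (_hn : 3 ≤ n) (h4 : n % 4 = 0 ∨ n % 4 = 3) :
    M n ≠ 0 ∧ padicValNat 2 (M n) = (n + 1) / 4 :=
  Pool.Agent.H.MP_7dfbfb_co.main n h4

end Pool.Agent.Results.MP_7dfbfb_co.TwoAdic
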